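import Mathlib

/-!
# Toeplitz matrices in a cyclic group
-/

set_option autoImplicit false

open Finset ZMod

namespace Pool.Agent.Lib.MP_cb27ba_nt.H70

/-- Parseval on `ZMod M` for a family of distinct frequencies. -/
lemma parseval {ι : Type*} {M : ℕ} [NeZero M] (S : Finset ι) (α : ι → ℂ) (c : ι → ZMod M)
    (hc : Set.InjOn c (S : Set ι)) :
    ∑ ξ : ZMod M, ‖∑ i ∈ S, α i * stdAddChar (ξ * c i)‖ ^ 2 = M * ∑ i ∈ S, ‖α i‖ ^ 2 := by
  classical
  have key : ((∑ ξ : ZMod M, ‖∑ i ∈ S, α i * stdAddChar (ξ * c i)‖ ^ 2 : ℝ) : ℂ)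
      = ((M * ∑ i ∈ S, ‖α i‖ ^ 2 : ℝ) : ℂ) := by
    push_cast
    have h1 : ∀ ξ : ZMod M, ((‖∑ i ∈ S, α i * stdAddChar (ξ * c i)‖ : ℂ)) ^ 2
        = ∑ i ∈ S, ∑ j ∈ S, (α i * (starRingEnd ℂ) (α j)) *
            (stdAddChar (ξ * (c i - c j)) : ℂ) := by
      intro ξ
      rw [← Complex.mul_conj', map_sum, Finset.sum_mul_sum]
      refine Finset.sum_congr rfl fun i _ => Finset.sum_congr rfl fun j _ => ?_
      rw [mul_sub, sub_eq_add_neg, AddChar.map_add_eq_mul, map_mul (starRingEnd ℂ),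
        ← AddChar.map_neg_eq_conj]
      ring
    rw [Finset.sum_congr rfl fun ξ _ => h1 ξ, Finset.sum_comm, mul_sum]
    refine sum_congr rfl fun i hi => ?_
    rw [Finset.sum_comm]
    have h2 : ∀ j ∈ S, ∑ ξ : ZMod M, (α i * (starRingEnd ℂ) (α j)) *
        (stdAddChar (ξ * (c i - c j)) : ℂ) = if j = i then (M : ℂ) * (‖α i‖ : ℂ) ^ 2 else 0 := by
      intro j hj
      rw [← mul_sum]
      have h3 := AddChar.sum_mulShift (c i - c j) (isPrimitive_stdAddChar M)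
      rw [h3, ZMod.card]
      by_cases h : j = i
      · subst h
        rw [if_pos rfl, sub_self, if_pos rfl, Complex.mul_conj']
        ring
      · rw [if_neg h, if_neg (fun h' => h (hc hj hi (sub_eq_zero.1 h').symm))]
        simp
    rw [sum_congr rfl h2, sum_ite_eq' S i, if_pos hi]
  exact_mod_cast key

/-- The norm of a Toeplitz matrix of size `N` is at most the maximum of its symbol on `ZMod (2N)`. -/
theorem toep (N : ℕ) [NeZero (2 * N)] (f : ℤ → ℂ) (V : ℝ)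
    (hV : ∀ ξ : ZMod (2 * N), ‖∑ u ∈ Ioo (-(N : ℤ)) N, f u * stdAddChar (ξ * (u : ZMod (2 * N)))‖ ≤ V)
    (α β : ℕ → ℂ) :
    ‖∑ i ∈ range N, ∑ j ∈ range N, α i * β j * f ((i : ℤ) - j)‖ ≤
      V * (Real.sqrt (∑ i ∈ range N, ‖α i‖ ^ 2) * Real.sqrt (∑ j ∈ range N, ‖β j‖ ^ 2)) := by
  have hM : 0 < 2 * N := NeZero.pos _
  have hMR : (0 : ℝ) < (2 * N : ℕ) := by exact_mod_cast hM
  have hMC : ((2 * N : ℕ) : ℂ) ≠ 0 := by exact_mod_cast hM.ne'
  set A : ZMod (2 * N) → ℂ := fun ξ => ∑ i ∈ range N, α i * stdAddChar (ξ * (-(i : ZMod (2 * N))))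
    with hA
  set B : ZMod (2 * N) → ℂ := fun ξ => ∑ j ∈ range N, β j * stdAddChar (ξ * (j : ZMod (2 * N)))
    with hB
  set F : ZMod (2 * N) → ℂ := fun ξ =>
    ∑ u ∈ Ioo (-(N : ℤ)) N, f u * stdAddChar (ξ * (u : ZMod (2 * N))) with hF
  have hcast : ∀ i ∈ range N, ∀ j ∈ range N, ((i : ZMod (2 * N)) = (j : ZMod (2 * N))) → i = j := by
    intro i hi j hj h
    rw [mem_range] at hi hj
    rw [ZMod.natCast_eq_natCast_iff', Nat.mod_eq_of_lt (by omega), Nat.mod_eq_of_lt (by omega)] at h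
    exact h
  -- Fourier inversion
  have hinv : ∀ i ∈ range N, ∀ j ∈ range N, ((2 * N : ℕ) : ℂ) * f ((i : ℤ) - j) =
      ∑ ξ : ZMod (2 * N), F ξ * (stdAddChar (ξ * (-(i : ZMod (2 * N)))) *
        stdAddChar (ξ * (j : ZMod (2 * N)))) := by
    intro i hi j hj
    have h1 : ∀ ξ : ZMod (2 * N), F ξ * (stdAddChar (ξ * (-(i : ZMod (2 * N)))) *
        stdAddChar (ξ * (j : ZMod (2 * N)))) = ∑ u ∈ Ioo (-(N : ℤ)) N, f u *
          stdAddChar (ξ * ((u : ZMod (2 * N)) - (((i : ℤ) - j : ℤ) : ZMod (2 * N)))) := by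
      intro ξ
      rw [hF]
      simp only
      rw [sum_mul]
      refine sum_congr rfl fun u _ => ?_
      rw [← AddChar.map_add_eq_mul, mul_assoc, ← AddChar.map_add_eq_mul]
      congr 2
      push_cast
      ring
    rw [sum_congr rfl fun ξ _ => h1 ξ, sum_comm]
    have h2 : ∀ u ∈ Ioo (-(N : ℤ)) N, ∑ ξ : ZMod (2 * N), f u *
          stdAddChar (ξ * ((u : ZMod (2 * N)) - (((i : ℤ) - j : ℤ) : ZMod (2 * N)))) =
          if u = (i : ℤ) - j then ((2 * N : ℕ) : ℂ) * f u else 0 := by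
      intro u hu
      rw [← mul_sum]
      have h3 := AddChar.sum_mulShift ((u : ZMod (2 * N)) - (((i : ℤ) - j : ℤ) : ZMod (2 * N)))
        (isPrimitive_stdAddChar (2 * N))
      rw [h3, ZMod.card]
      by_cases h : u = (i : ℤ) - j
      · rw [if_pos h, if_pos (by rw [h, sub_self])]
        ring
      · rw [if_neg h, if_neg]
        · simp
        · intro h'
          apply h
          rw [sub_eq_zero, ZMod.intCast_eq_intCast_iff, Int.modEq_iff_dvd] at h'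
          have h4 : ((i : ℤ) - j) - u = 0 := by
            refine Int.eq_zero_of_abs_lt_dvd h' ?_
            rw [mem_Ioo] at hu
            rw [mem_range] at hi hj
            push_cast
            rw [abs_lt]
            constructor <;> omega
          omega
    rw [sum_congr rfl h2, sum_ite_eq', if_pos]
    rw [mem_Ioo]
    rw [mem_range] at hi hj
    constructor <;> omega
  have hmain : ((2 * N : ℕ) : ℂ) * ∑ i ∈ range N, ∑ j ∈ range N, α i * β j * f ((i : ℤ) - j) =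
      ∑ ξ : ZMod (2 * N), F ξ * (A ξ * B ξ) := by
    have h1 : ∀ ξ : ZMod (2 * N), F ξ * (A ξ * B ξ) = ∑ i ∈ range N, ∑ j ∈ range N,
        (α i * β j) * (F ξ * (stdAddChar (ξ * (-(i : ZMod (2 * N)))) *
        stdAddChar (ξ * (j : ZMod (2 * N))))) := by
      intro ξ
      rw [hA, hB]
      simp only
      rw [sum_mul_sum, mul_sum]
      refine sum_congr rfl fun i _ => ?_
      rw [mul_sum]
      refine sum_congr rfl fun j _ => ?_
      ring
    have h2 : ∑ ξ : ZMod (2 * N), F ξ * (A ξ * B ξ) = ∑ i ∈ range N, ∑ j ∈ range N,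
        ∑ ξ : ZMod (2 * N), (α i * β j) * (F ξ * (stdAddChar (ξ * (-(i : ZMod (2 * N)))) *
        stdAddChar (ξ * (j : ZMod (2 * N))))) := by
      rw [sum_congr rfl fun ξ _ => h1 ξ, sum_comm]
      refine sum_congr rfl fun i _ => ?_
      exact sum_comm
    rw [h2, mul_sum]
    refine sum_congr rfl fun i hi => ?_
    rw [mul_sum]
    refine sum_congr rfl fun j hj => ?_
    rw [← mul_sum, ← hinv i hi j hj]
    ring
  have hV0 : 0 ≤ V := (norm_nonneg _).trans (hV 0)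
  have hPA : ∑ ξ : ZMod (2 * N), ‖A ξ‖ ^ 2 = (2 * N : ℕ) * ∑ i ∈ range N, ‖α i‖ ^ 2 := by
    refine parseval (range N) α (fun i : ℕ => -(i : ZMod (2 * N))) ?_
    intro i hi j hj h
    exact hcast i hi j hj (neg_injective h)
  have hPB : ∑ ξ : ZMod (2 * N), ‖B ξ‖ ^ 2 = (2 * N : ℕ) * ∑ j ∈ range N, ‖β j‖ ^ 2 :=
    parseval (range N) β (fun j : ℕ => (j : ZMod (2 * N))) fun i hi j hj h => hcast i hi j hj h
  have hnorm : (2 * N : ℕ) * ‖∑ i ∈ range N, ∑ j ∈ range N, α i * β j * f ((i : ℤ) - j)‖ ≤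
      V * ((2 * N : ℕ) * (Real.sqrt (∑ i ∈ range N, ‖α i‖ ^ 2) *
        Real.sqrt (∑ j ∈ range N, ‖β j‖ ^ 2))) := by
    have h0 : (2 * N : ℕ) * ‖∑ i ∈ range N, ∑ j ∈ range N, α i * β j * f ((i : ℤ) - j)‖ =
        ‖∑ ξ : ZMod (2 * N), F ξ * (A ξ * B ξ)‖ := by
      rw [← hmain, norm_mul, Complex.norm_natCast]
    rw [h0]
    calc ‖∑ ξ : ZMod (2 * N), F ξ * (A ξ * B ξ)‖ ≤ ∑ ξ : ZMod (2 * N), V * (‖A ξ‖ * ‖B ξ‖) := by
          refine norm_sum_le_of_le _ fun ξ _ => ?_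
          rw [norm_mul, norm_mul]
          exact mul_le_mul_of_nonneg_right (hV ξ) (by positivity)
      _ = V * ∑ ξ : ZMod (2 * N), ‖A ξ‖ * ‖B ξ‖ := by rw [mul_sum]
      _ ≤ V * (Real.sqrt (∑ ξ : ZMod (2 * N), ‖A ξ‖ ^ 2) *
            Real.sqrt (∑ ξ : ZMod (2 * N), ‖B ξ‖ ^ 2)) :=
          mul_le_mul_of_nonneg_left (Real.sum_mul_le_sqrt_mul_sqrt _ _ _) hV0
      _ = _ := by
          rw [hPA, hPB, Real.sqrt_mul hMR.le, Real.sqrt_mul hMR.le]
          have h3 := Real.mul_self_sqrt hMR.le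
          congr 1
          calc √((2 * N : ℕ) : ℝ) * √(∑ i ∈ range N, ‖α i‖ ^ 2) *
              (√((2 * N : ℕ) : ℝ) * √(∑ j ∈ range N, ‖β j‖ ^ 2)) =
              (√((2 * N : ℕ) : ℝ) * √((2 * N : ℕ) : ℝ)) * (√(∑ i ∈ range N, ‖α i‖ ^ 2) *
                √(∑ j ∈ range N, ‖β j‖ ^ 2)) := by ring
            _ = _ := by rw [h3]
  have h5 : V * ((2 * N : ℕ) * (Real.sqrt (∑ i ∈ range N, ‖α i‖ ^ 2) *
        Real.sqrt (∑ j ∈ range N, ‖β j‖ ^ 2))) = (2 * N : ℕ) * (V *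
        (Real.sqrt (∑ i ∈ range N, ‖α i‖ ^ 2) * Real.sqrt (∑ j ∈ range N, ‖β j‖ ^ 2))) := by ring
  rw [h5] at hnorm
  exact le_of_mul_le_mul_left hnorm hMR

end Pool.Agent.Lib.MP_cb27ba_nt.H70
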